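import Pool.Agent.W792.LL.Stm

set_option autoImplicit false

namespace Pool.Agent.W22.LL

open MeasureTheory Filter Topology

/-- Fatou with a bound. -/
lemma fatou {S : Set ℝ} {u : ℕ → ℝ → ℝ} {v : ℝ → ℝ} {c : ENNReal} (hu : ∀ n, Measurable (u n))
    (hv : ∀ᵐ E, Tendsto (fun n => u n E) atTop (𝓝 (v E)))
    (hc : ∀ᶠ n in atTop, ∫⁻ E in S, ‖u n E‖ₑ ≤ c) : ∫⁻ E in S, ‖v E‖ₑ ≤ c := by
  refine (lintegral_enorm_le_liminf_of_tendsto (G := u) (ae_restrict_of_ae hv)
    (fun n => (hu n).enorm.aemeasurable)).trans ?_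
  exact liminf_le_of_frequently_le' hc.frequently

theorem main : Pool.Agent.W792.LL.S_L1 := by
  intro g C hc h0 hint hpi hsum htail hlim
  have hgm : ∀ n, Measurable (g n) := fun n => (hc n).measurable
  obtain ⟨h, hm, hh⟩ := measurable_limit_of_tendsto_metrizable_ae (μ := volume) (f := g)
    (L := atTop) (fun n => (hgm n).aemeasurable)
    (hlim.mono fun E hE => by obtain ⟨L, -, hL⟩ := hE; exact ⟨L, hL⟩)
  have hpos : ∀ᵐ E, 0 < h E := by
    filter_upwards [hlim, hh] with E h1 h2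
    obtain ⟨L, hL, h3⟩ := h1
    rw [tendsto_nhds_unique h2 h3]
    exact hL
  have hgn : ∀ (n : ℕ) (S : Set ℝ), ∫⁻ E in S, ‖g n E‖ₑ = ENNReal.ofReal (∫ E in S, g n E) := by
    intro n S
    rw [← ofReal_integral_norm_eq_lintegral_enorm (hint n).integrableOn]
    congr 1
    refine integral_congr_ae (Eventually.of_forall fun E => ?_)
    simp only [Real.norm_eq_abs]
    exact abs_of_nonneg (h0 n E)
  -- integrability
  have hhi : Integrable h := by
    refine ⟨hm.aestronglyMeasurable, ?_⟩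
    have h1 : ∫⁻ E in Set.univ, ‖h E‖ₑ ≤ ENNReal.ofReal Real.pi := by
      refine fatou hgm hh (Eventually.of_forall fun n => ?_)
      rw [hgn, setIntegral_univ]
      exact ENNReal.ofReal_le_ofReal (hpi n)
    rw [Measure.restrict_univ] at h1
    exact lt_of_le_of_lt h1 ENNReal.ofReal_lt_top
  refine ⟨h, hhi, hpos, fun z hz => ?_⟩
  -- the tail
  have htl : ∀ B : ℝ, 1 ≤ B → ∀ n, ∫⁻ E in {E : ℝ | B ≤ |E|}, ‖g n E - h E‖ₑ ≤
      ENNReal.ofReal (2 * (C / B)) := by
    intro B hB n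
    have h1 : ∀ m, ∫⁻ E in {E : ℝ | B ≤ |E|}, ‖g m E‖ₑ ≤ ENNReal.ofReal (C / B) := by
      intro m
      rw [hgn]
      exact ENNReal.ofReal_le_ofReal (htail m B hB)
    have h2 : ∫⁻ E in {E : ℝ | B ≤ |E|}, ‖h E‖ₑ ≤ ENNReal.ofReal (C / B) :=
      fatou hgm hh (Eventually.of_forall h1)
    have hC : 0 ≤ C / B :=
      le_trans (integral_nonneg fun E => h0 0 E) (htail 0 B hB)
    calc ∫⁻ E in {E : ℝ | B ≤ |E|}, ‖g n E - h E‖ₑ
        ≤ ∫⁻ E in {E : ℝ | B ≤ |E|}, (‖g n E‖ₑ + ‖h E‖ₑ) :=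
          lintegral_mono fun E => enorm_sub_le
      _ = (∫⁻ E in {E : ℝ | B ≤ |E|}, ‖g n E‖ₑ) + ∫⁻ E in {E : ℝ | B ≤ |E|}, ‖h E‖ₑ :=
          lintegral_add_left (hgm n).enorm _
      _ ≤ ENNReal.ofReal (C / B) + ENNReal.ofReal (C / B) := add_le_add (h1 n) h2
      _ = ENNReal.ofReal (2 * (C / B)) := by
          rw [← ENNReal.ofReal_add hC hC, two_mul]
  -- the local part
  have hloc : ∀ B : ℕ, ∀ n, ∫⁻ E in Set.Icc (-(B : ℝ)) B, ‖g n E - h E‖ₑ ≤
      ENNReal.ofReal (∑' m : ℕ, ∫ E in Set.Icc (-(B : ℝ)) B, |g (m + n + 1) E - g (m + n) E|) := by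
    intro B n
    set d : ℕ → ℝ := fun m => ∫ E in Set.Icc (-(B : ℝ)) B, |g (m + 1) E - g m E| with hd
    have hd0 : ∀ m, 0 ≤ d m := fun m => integral_nonneg fun E => abs_nonneg _
    have hds : Summable fun m => d (m + n) := (summable_nat_add_iff n).2 (hsum B)
    have hstep : ∀ m, ∫⁻ E in Set.Icc (-(B : ℝ)) B, ‖g n E - g (n + m) E‖ₑ ≤
        ENNReal.ofReal (∑ j ∈ Finset.range m, d (j + n)) := by
      intro m
      induction m with
      | zero => simp
      | succ m ih =>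
        have e1 : ∫⁻ E in Set.Icc (-(B : ℝ)) B, ‖g (n + m) E - g (n + m + 1) E‖ₑ =
            ENNReal.ofReal (d (m + n)) := by
          have e2 : Integrable (fun E => g (n + m) E - g (n + m + 1) E)
              (volume.restrict (Set.Icc (-(B : ℝ)) B)) :=
            ((hint (n + m)).sub (hint (n + m + 1))).integrableOn
          rw [← ofReal_integral_norm_eq_lintegral_enorm e2, hd]
          congr 1
          refine integral_congr_ae (Eventually.of_forall fun E => ?_)
          simp only [Real.norm_eq_abs]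
          rw [abs_sub_comm, add_comm n m]
        calc ∫⁻ E in Set.Icc (-(B : ℝ)) B, ‖g n E - g (n + (m + 1)) E‖ₑ
            ≤ ∫⁻ E in Set.Icc (-(B : ℝ)) B, (‖g n E - g (n + m) E‖ₑ +
              ‖g (n + m) E - g (n + m + 1) E‖ₑ) := by
              refine lintegral_mono fun E => ?_
              have : g n E - g (n + (m + 1)) E =
                  (g n E - g (n + m) E) + (g (n + m) E - g (n + m + 1) E) := by
                rw [← add_assoc]; ring
              rw [this]
              exact enorm_add_le _ _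
          _ = (∫⁻ E in Set.Icc (-(B : ℝ)) B, ‖g n E - g (n + m) E‖ₑ) +
              ∫⁻ E in Set.Icc (-(B : ℝ)) B, ‖g (n + m) E - g (n + m + 1) E‖ₑ :=
              lintegral_add_left (f := fun E => ‖g n E - g (n + m) E‖ₑ)
                ((hgm n).sub (hgm _)).enorm _
          _ ≤ ENNReal.ofReal (∑ j ∈ Finset.range m, d (j + n)) + ENNReal.ofReal (d (m + n)) := by
              rw [e1]
              exact add_le_add ih le_rfl
          _ = ENNReal.ofReal (∑ j ∈ Finset.range (m + 1), d (j + n)) := by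
              rw [← ENNReal.ofReal_add (Finset.sum_nonneg fun j _ => hd0 _) (hd0 _),
                Finset.sum_range_succ]
    refine fatou (u := fun m E => g n E - g (n + m) E) (fun m => (hgm n).sub (hgm _)) ?_
      (Eventually.of_forall fun m => (hstep m).trans ?_)
    · filter_upwards [hh] with E hE
      refine tendsto_const_nhds.sub ?_
      have := (tendsto_add_atTop_iff_nat n).2 hE
      simpa [add_comm] using this
    · refine ENNReal.ofReal_le_ofReal ?_
      exact hds.sum_le_tsum _ fun j _ => hd0 _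
  -- convergence in mean
  have hL1 : Tendsto (fun n => ∫⁻ E, ‖g n E - h E‖ₑ) atTop (𝓝 0) := by
    rw [ENNReal.tendsto_nhds_zero]
    intro ε hε
    obtain ⟨δ, hδ, hδε⟩ : ∃ δ : ℝ, 0 < δ ∧ ENNReal.ofReal (2 * δ) ≤ ε := by
      rcases eq_or_ne ε ⊤ with rfl | hε'
      · exact ⟨1, one_pos, le_top⟩
      · refine ⟨ε.toReal / 2, half_pos (ENNReal.toReal_pos hε.ne' hε'), ?_⟩
        rw [mul_div_cancel₀ _ two_ne_zero, ENNReal.ofReal_toReal hε']
    obtain ⟨B, hB1, hB2⟩ : ∃ B : ℕ, 1 ≤ B ∧ 2 * (C / (B : ℝ)) ≤ δ := by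
      obtain ⟨B, hB⟩ := exists_nat_ge (max 1 (2 * C / δ))
      have h1 : (1 : ℝ) ≤ B := le_trans (le_max_left _ _) hB
      refine ⟨B, by exact_mod_cast h1, ?_⟩
      have h2 : 2 * C / δ ≤ B := le_trans (le_max_right _ _) hB
      rw [div_le_iff₀ hδ] at h2
      rw [← mul_div_assoc, div_le_iff₀ (by linarith)]
      linarith
    have h3 := tendsto_sum_nat_add
      (fun m : ℕ => ∫ E in Set.Icc (-(B : ℝ)) B, |g (m + 1) E - g m E|)
    have h4 := (h3.eventually (gt_mem_nhds hδ))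
    filter_upwards [h4] with n hn
    refine le_trans ?_ hδε
    have hS : MeasurableSet (Set.Icc (-(B : ℝ)) B) := measurableSet_Icc
    rw [← lintegral_add_compl _ hS]
    have h5 : ∫⁻ E in (Set.Icc (-(B : ℝ)) B)ᶜ, ‖g n E - h E‖ₑ ≤ ENNReal.ofReal δ := by
      refine le_trans (lintegral_mono_set ?_) ((htl B (by exact_mod_cast hB1) n).trans
        (ENNReal.ofReal_le_ofReal hB2))
      intro E hE
      by_contra hcon
      simp only [Set.mem_ofPred_eq, not_le] at hcon
      apply hE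
      rw [abs_lt] at hcon
      exact ⟨hcon.1.le, hcon.2.le⟩
    calc _ ≤ ENNReal.ofReal δ + ENNReal.ofReal δ :=
          add_le_add ((hloc B n).trans (ENNReal.ofReal_le_ofReal hn.le)) h5
      _ = ENNReal.ofReal (2 * δ) := by rw [← ENNReal.ofReal_add hδ.le hδ.le, two_mul]
  -- the Stieltjes transforms
  have hb : ∀ E : ℝ, ‖((E : ℂ) - z)⁻¹‖ ≤ 1 / z.im := by
    intro E
    have h1 : z.im ≤ ‖(E : ℂ) - z‖ := by
      have := Complex.abs_im_le_norm ((E : ℂ) - z)
      rw [Complex.sub_im, Complex.ofReal_im, zero_sub, abs_neg, abs_of_pos hz] at this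
      exact this
    rw [norm_inv, ← one_div]
    exact one_div_le_one_div_of_le hz h1
  have hk : Measurable fun E : ℝ => ((E : ℂ) - z)⁻¹ := by fun_prop
  have hmul : ∀ v : ℝ → ℝ, Integrable v → Integrable fun E : ℝ => (v E : ℂ) / ((E : ℂ) - z) := by
    intro v hv
    simp only [div_eq_mul_inv]
    exact hv.ofReal.mul_bdd hk.aestronglyMeasurable (c := 1 / z.im) (Eventually.of_forall hb)
  refine tendsto_integral_of_L1 _ (hmul h hhi).aestronglyMeasurable
    (Eventually.of_forall fun n => hmul _ (hint n)) ?_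
  have h6 : Tendsto (fun n => ENNReal.ofReal (1 / z.im) * ∫⁻ E, ‖g n E - h E‖ₑ) atTop (𝓝 0) := by
    have := ENNReal.Tendsto.const_mul hL1 (Or.inr (ENNReal.ofReal_ne_top (r := 1 / z.im)))
    rwa [mul_zero] at this
  refine tendsto_of_tendsto_of_tendsto_of_le_of_le tendsto_const_nhds h6 (fun n => zero_le)
    fun n => ?_
  simp only
  rw [← lintegral_const_mul (f := fun E => ‖g n E - h E‖ₑ) _ ((hgm n).sub hm).enorm]
  refine lintegral_mono fun E => ?_
  have e1 : (g n E : ℂ) / ((E : ℂ) - z) - (h E : ℂ) / ((E : ℂ) - z) =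
      ((E : ℂ) - z)⁻¹ * ((g n E - h E : ℝ) : ℂ) := by
    push_cast
    ring
  simp only [e1, enorm_mul]
  refine mul_le_mul' ?_ ?_
  · rw [← ofReal_norm]
    exact ENNReal.ofReal_le_ofReal (hb E)
  · rw [← ofReal_norm, ← ofReal_norm, Complex.norm_real]

end Pool.Agent.W22.LL
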